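import Mathlib
import Pool.Agent.Results.MP_aec1d5_lc.FailsACCNotComplete

/-!
# Two classes of c.e. algebras with incomparable isomorphism relations

The basic definitions (signatures, terms, algebras, varieties, the presented algebras
`V_n[e]`, their isomorphism relation `IsoRel V n`, computable reducibility `Le`, c.e. sets of
laws) are those of `Pool/Agent/Results/MP_f76ce6_lc/ConstantOperations.lean` and
`Pool/Agent/Results/MP_aec1d5_lc/FailsACCNotComplete.lean`.
-/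

set_option autoImplicit false

namespace Pool.Agent.Results.MP_418eb4_lc.IncomparableClasses

open Pool.Agent.Results.MP_f76ce6_lc.ConstantOperations
open Pool.Agent.Results.MP_aec1d5_lc.FailsACCNotComplete

/-! ### Definitions used in the statement -/

/-- The signature with a binary operation symbol for every number. -/
abbrev sig2 : Sig := sig (fun _ => 2) (Computable.const 2)

/-- The operations of the algebra `algA`; `(k, true)` is written `x_k`, and `(k, false)` is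
written `k`.  Operation `0` is `x_k ↦ x_{k+1}`, `k ↦ k`; operation `1` is its inverse; operation
`2` is `x_k ↦ k`, `k ↦ k`; operation `i + 3` depends on both arguments. -/
def opA : ℕ → ℤ × Bool → ℤ × Bool → ℤ × Bool
  | 0, u, _ => (if u.2 then u.1 + 1 else u.1, u.2)
  | 1, u, _ => (if u.2 then u.1 - 1 else u.1, u.2)
  | 2, u, _ => (u.1, false)
  | i + 3, u, v => (if u.1 = v.1 then u.1 else max u.1 v.1 - i, u.2 && v.2)

/-- The algebra with carrier `ℤ × Bool` and operations `opA k`. -/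
abbrev algA : Alg sig2 := ⟨ℤ × Bool, fun k _ v => opA k (v (0 : Fin 2)) (v (1 : Fin 2))⟩

/-- The generator `x_0` of `algA`. -/
def x0 : algA.carrier := ((0 : ℤ), true)

/-- The variety given by all laws in one variable that hold in the algebra `F` at the point `a`. -/
def idLaws {S : Sig} (F : Alg S) (a : F.carrier) : Variety S :=
  {p | ∃ s t : Tm S (Fin 1), F.eval (fun _ => a) s = F.eval (fun _ => a) t ∧
    p = (s.subst fun _ => .var 0, t.subst fun _ => .var 0)}

/-! ### Proofs -/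

open Encodable
open Pool.Agent.Helper578.JD hiding W

section general

variable {S : Sig}

theorem eval_subst {X Y : Type} (F : Alg S) (v : Y → F.carrier) (σ : X → Tm S Y) (t : Tm S X) :
    F.eval v (t.subst σ) = F.eval (fun x => F.eval v (σ x)) t := by
  induction t with
  | var x => rfl
  | app k h f ih =>
    show F.op k h (fun i => F.eval v ((f i).subst σ)) = F.op k h fun i => F.eval _ (f i)
    congr 1
    funext i
    exact ih i

/-- homomorphisms -/
def Hom (F G : Alg S) (φ : F.carrier → G.carrier) : Prop :=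
  ∀ k h v, φ (F.op k h v) = G.op k h fun i => φ (v i)

theorem hom_eval {X : Type} {F G : Alg S} {φ : F.carrier → G.carrier} (hφ : Hom F G φ)
    (v : X → F.carrier) (t : Tm S X) : φ (F.eval v t) = G.eval (fun x => φ (v x)) t := by
  induction t with
  | var x => rfl
  | app k h f ih =>
    show φ (F.op k h fun i => F.eval v (f i)) = G.op k h fun i => G.eval _ (f i)
    rw [hφ]
    congr 1
    funext i
    exact ih i

/-- the congruence of `F` generated by `E` -/
inductive CG (F : Alg S) (E : F.carrier → F.carrier → Prop) : F.carrier → F.carrier → Prop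
  | refl (u) : CG F E u u
  | symm {u v} : CG F E u v → CG F E v u
  | trans {u v w} : CG F E u v → CG F E v w → CG F E u w
  | congr (k h) (v w : Fin (S.ar k) → F.carrier) : (∀ i, CG F E (v i) (w i)) →
      CG F E (F.op k h v) (F.op k h w)
  | base {u v} : E u v → CG F E u v

/-- the pairs given by the equations in `W_e` -/
def Ee (F : Alg S) (a : F.carrier) (e : ℕ) (u v : F.carrier) : Prop :=
  ∃ s t : Tm S (Fin 1), W e (Nat.pair s.code t.code) ∧ F.eval (fun _ => a) s = u ∧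
    F.eval (fun _ => a) t = v

theorem cg_of_eval {F : Alg S} {a : F.carrier} {e : ℕ} {s t : Tm S (Fin 1)}
    (h : F.eval (fun _ => a) s = F.eval (fun _ => a) t) : Cg (idLaws F a) 1 e s t := by
  have h1 := Cg.law (V := idLaws F a) (n := 1) (e := e)
    (p := (s.subst fun _ => .var 0, t.subst fun _ => .var 0)) ⟨s, t, h, rfl⟩
    (fun _ => .var 0)
  have key : ∀ r : Tm S (Fin 1), (r.subst (fun _ => (.var 0 : Tm S ℕ))).subst
      (fun _ => (.var 0 : Tm S (Fin 1))) = r := by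
    intro r
    induction r with
    | var i =>
      have : i = 0 := Subsingleton.elim _ _
      rw [this]; rfl
    | app k h f ih =>
      show Tm.app k h (fun i => ((f i).subst _).subst _) = _
      congr 1
      funext i
      exact ih i
  simp only [key] at h1
  exact h1

theorem cg_iff' {F : Alg S} {a : F.carrier} (hgen : ∀ u, ∃ t, F.eval (fun _ : Fin 1 => a) t = u)
    (hend : ∀ u, ∃ φ, Hom F F φ ∧ φ a = u) {e : ℕ} {s t : Tm S (Fin 1)} :
    Cg (idLaws F a) 1 e s t ↔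
      CG F (Ee F a e) (F.eval (fun _ => a) s) (F.eval (fun _ => a) t) := by
  constructor
  · intro h
    induction h with
    | refl t => exact .refl _
    | symm _ ih => exact ih.symm
    | trans _ _ ih1 ih2 => exact ih1.trans ih2
    | congr k h f g _ ih => exact .congr k h _ _ ih
    | @law p hp σ =>
      obtain ⟨s, t, h, rfl⟩ := hp
      have h1 : F.eval (fun _ => a) ((s.subst fun _ => Tm.var 0).subst σ) =
          F.eval (fun _ => a) ((t.subst fun _ => Tm.var 0).subst σ) := by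
        rw [eval_subst, eval_subst, eval_subst, eval_subst]
        obtain ⟨φ, hφ, ha⟩ := hend (F.eval (fun _ => a) (σ 0))
        have h2 := hom_eval hφ (fun _ : Fin 1 => a) s
        have h3 := hom_eval hφ (fun _ : Fin 1 => a) t
        rw [ha] at h2 h3
        rw [h] at h2
        exact h2.symm.trans h3
      simp only
      rw [h1]
      exact .refl _
    | @eqn s t h => exact .base ⟨s, t, h, rfl, rfl⟩
  · intro h
    have key : ∀ u v, CG F (Ee F a e) u v → ∀ s t : Tm S (Fin 1),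
        F.eval (fun _ => a) s = u → F.eval (fun _ => a) t = v → Cg (idLaws F a) 1 e s t := by
      intro u v huv
      induction huv with
      | refl u => intro s t hs ht; exact cg_of_eval (hs.trans ht.symm)
      | symm _ ih => intro s t hs ht; exact (ih t s ht hs).symm
      | @trans u v w _ _ ih1 ih2 =>
        intro s t hs ht
        obtain ⟨r, hr⟩ := hgen v
        exact (ih1 s r hs hr).trans (ih2 r t hr ht)
      | congr k h v w _ ih =>
        intro s t hs ht
        choose r hr using hgen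
        have h1 : Cg (idLaws F a) 1 e (.app k h fun i => r (v i)) (.app k h fun i => r (w i)) :=
          .congr k h _ _ fun i => ih i _ _ (hr _) (hr _)
        have h2 : F.eval (fun _ => a) (Tm.app k h fun i => r (v i)) = F.op k h v := by
          show F.op k h (fun i => F.eval _ (r (v i))) = _
          simp only [hr]
        have h3 : F.eval (fun _ => a) (Tm.app k h fun i => r (w i)) = F.op k h w := by
          show F.op k h (fun i => F.eval _ (r (w i))) = _
          simp only [hr]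
        exact ((cg_of_eval (hs.trans h2.symm)).trans h1).trans (cg_of_eval (h3.trans ht.symm))
      | base huv =>
        intro s t hs ht
        obtain ⟨s', t', h1, h2, h3⟩ := huv
        exact ((cg_of_eval (hs.trans h2.symm)).trans (.eqn h1)).trans
          (cg_of_eval (h3.trans ht.symm))
    exact key _ _ h s t rfl rfl

/-- `V_1[e]` is the quotient of `F` by `CG F (Ee F a e)`. -/
theorem exists_quot {F : Alg S} {a : F.carrier}
    (hgen : ∀ u, ∃ t, F.eval (fun _ : Fin 1 => a) t = u)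
    (hend : ∀ u, ∃ φ, Hom F F φ ∧ φ a = u) (e : ℕ) :
    ∃ ψ : F.carrier → (Pres (idLaws F a) 1 e).carrier, Function.Surjective ψ ∧
      Hom F (Pres (idLaws F a) 1 e) ψ ∧ ∀ u v, ψ u = ψ v ↔ CG F (Ee F a e) u v := by
  choose r hr using hgen
  have hgen' : ∀ u, ∃ t, F.eval (fun _ : Fin 1 => a) t = u := fun u => ⟨r u, hr u⟩
  refine ⟨fun u => Quotient.mk (cgSetoid (idLaws F a) 1 e) (r u), ?_, ?_, ?_⟩
  · intro q
    obtain ⟨t, rfl⟩ := Quotient.exists_rep (s := cgSetoid (idLaws F a) 1 e) q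
    exact ⟨F.eval (fun _ => a) t, Quotient.sound (s := cgSetoid (idLaws F a) 1 e)
      (cg_of_eval (hr _))⟩
  · intro k h v
    rw [op_mk]
    refine Quotient.sound (s := cgSetoid (idLaws F a) 1 e) (cg_of_eval ?_)
    rw [hr]
    show _ = F.op k h (fun i => F.eval _ (r (v i)))
    simp only [hr]
  · intro u v
    constructor
    · intro h
      have h1 := (cg_iff' hgen' hend).1 (Quotient.exact (s := cgSetoid (idLaws F a) 1 e) h)
      rwa [hr, hr] at h1
    · intro h
      refine Quotient.sound (s := cgSetoid (idLaws F a) 1 e) ((cg_iff' hgen' hend).2 ?_)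
      rw [hr, hr]
      exact h

theorem iso_of_quot {F A B : Alg S} {ψ : F.carrier → A.carrier} {ψ' : F.carrier → B.carrier}
    (h1 : Function.Surjective ψ) (h2 : Hom F A ψ) (h1' : Function.Surjective ψ')
    (h2' : Hom F B ψ') (hk : ∀ u v, ψ u = ψ v ↔ ψ' u = ψ' v) : Iso A B := by
  choose r hr using h1
  let g : A.carrier → B.carrier := fun x => ψ' (r x)
  have hg : ∀ u, g (ψ u) = ψ' u := fun u => (hk _ _).1 (hr _)
  have hb : Function.Bijective g := by
    constructor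
    · intro x y hxy
      have := (hk _ _).2 hxy
      rwa [hr, hr] at this
    · intro y
      obtain ⟨u, rfl⟩ := h1' y
      exact ⟨ψ u, hg u⟩
  refine ⟨Equiv.ofBijective g hb, fun k h v => ?_⟩
  show g (A.op k h v) = B.op k h fun i => g (v i)
  have h3 : v = fun i => ψ (r (v i)) := funext fun i => (hr _).symm
  have h4 : A.op k h v = ψ (F.op k h fun i => r (v i)) := by
    rw [h2]
    exact congrArg (A.op k h) h3
  rw [h4, hg, h2']

end general

/-- the code of a term determines the term -/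
theorem code_inj {S : Sig} {n : ℕ} {s t : Tm S (Fin n)} (h : s.code = t.code) : s = t := by
  induction s generalizing t with
  | var i =>
    cases t with
    | var j =>
      have h' : 2 * (i : ℕ) = 2 * (j : ℕ) := h
      congr 1
      exact Fin.ext (by omega)
    | app k hk g =>
      have h' : 2 * (i : ℕ) = 2 * Nat.pair k (encode (List.ofFn fun i => (g i).code)) + 1 := h
      omega
  | app k hk f ih =>
    cases t with
    | var j =>
      have h' : 2 * Nat.pair k (encode (List.ofFn fun i => (f i).code)) + 1 = 2 * (j : ℕ) := h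
      omega
    | app k' hk' g =>
      have h' : 2 * Nat.pair k (encode (List.ofFn fun i => (f i).code)) + 1 =
        2 * Nat.pair k' (encode (List.ofFn fun i => (g i).code)) + 1 := h
      have h1 : Nat.pair k (encode (List.ofFn fun i => (f i).code)) =
        Nat.pair k' (encode (List.ofFn fun i => (g i).code)) := by omega
      obtain ⟨rfl, h3⟩ := Nat.pair_eq_pair.1 h1
      have h4 := encode_injective h3
      have h5 : ∀ i, (f i).code = (g i).code := fun i => congrFun (List.ofFn_injective h4) i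
      congr 1
      funext i
      exact ih i (h5 i)

/-! ### the algebra `algA` -/

/-- terms for `x_n` -/
def up : ℕ → Tm sig2 (Fin 1)
  | 0 => .var 0
  | n + 1 => .app 0 trivial fun _ => up n

/-- terms for `x_{-n}` -/
def dn : ℕ → Tm sig2 (Fin 1)
  | 0 => .var 0
  | n + 1 => .app 1 trivial fun _ => dn n

/-- the number `k` -/
def N (k : ℤ) : algA.carrier := (k, false)

/-- the generator `x_k` -/
def X (k : ℤ) : algA.carrier := (k, true)

theorem eval_up (n : ℕ) : algA.eval (fun _ => x0) (up n) = X n := by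
  induction n with
  | zero => rfl
  | succ n ih =>
    show opA 0 (algA.eval (fun _ => x0) (up n)) (algA.eval (fun _ => x0) (up n)) = _
    rw [ih]
    simp [opA, X]

theorem eval_dn (n : ℕ) : algA.eval (fun _ => x0) (dn n) = X (-n) := by
  induction n with
  | zero => simp [X, x0, dn, Alg.eval]
  | succ n ih =>
    show opA 1 (algA.eval (fun _ => x0) (dn n)) (algA.eval (fun _ => x0) (dn n)) = _
    rw [ih]
    simp [opA, X]
    ring

theorem hgen : ∀ u, ∃ t, algA.eval (fun _ : Fin 1 => x0) t = u := by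
  have h1 : ∀ k : ℤ, ∃ t, algA.eval (fun _ : Fin 1 => x0) t = X k := by
    intro k
    obtain ⟨n, rfl | rfl⟩ := k.eq_nat_or_neg
    · exact ⟨up n, eval_up n⟩
    · exact ⟨dn n, eval_dn n⟩
  rintro ⟨k, b⟩
  obtain ⟨t, ht⟩ := h1 k
  cases b with
  | true => exact ⟨t, ht⟩
  | false =>
    refine ⟨.app 2 trivial fun _ => t, ?_⟩
    show opA 2 (algA.eval (fun _ => x0) t) (algA.eval (fun _ => x0) t) = _
    rw [ht]
    rfl

/-- the shift -/
def shf (j : ℤ) (u : algA.carrier) : algA.carrier := ((u.1 : ℤ) + j, u.2)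

theorem hom_shf (j : ℤ) : Hom algA algA (shf j) := by
  intro k _ v
  show shf j (opA k _ _) = opA k (shf j _) (shf j _)
  generalize v (0 : Fin 2) = a
  generalize v (1 : Fin 2) = b
  obtain ⟨a, p⟩ := a
  obtain ⟨b, q⟩ := b
  match k with
  | 0 => cases p <;> simp [opA, shf, add_right_comm]
  | 1 => cases p <;> simp [opA, shf]; ring
  | 2 => simp [opA, shf]
  | i + 3 =>
    simp only [opA, shf, add_left_inj, Prod.mk.injEq, and_true]
    by_cases h : a = b
    · simp [h]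
    · simp only [h, if_false]
      rw [max_add_add_right]
      ring

theorem hend : ∀ u, ∃ φ, Hom algA algA φ ∧ φ x0 = u := by
  rintro ⟨j, b⟩
  cases b with
  | true => exact ⟨shf j, hom_shf j, by simp [shf, x0]⟩
  | false =>
    refine ⟨fun _ => (j, false), fun k _ v => ?_, rfl⟩
    show ((j, false) : ℤ × Bool) = opA k (j, false) (j, false)
    match k with
    | 0 => rfl
    | 1 => rfl
    | 2 => rfl
    | i + 3 => simp [opA]

section cong

variable {E : algA.carrier → algA.carrier → Prop}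

theorem op2 (k : ℕ) {u u' v v' : algA.carrier} (h1 : CG algA E u u') (h2 : CG algA E v v') :
    CG algA E (opA k u v) (opA k u' v') := by
  have h := CG.congr (F := algA) (E := E) k trivial (![u, v] : Fin 2 → algA.carrier)
    (![u', v'] : Fin 2 → algA.carrier) (fun i => by
      have : ∀ i : Fin 2, CG algA E ((![u, v] : Fin 2 → algA.carrier) i)
          ((![u', v'] : Fin 2 → algA.carrier) i) := by
        intro i
        fin_cases i
        · exact h1
        · exact h2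
      exact this i)
  exact h

theorem g_eq (i : ℕ) {a b : ℤ} (p : Bool) (h : a < b) :
    opA (i + 3) (a, p) (b, p) = (b - i, p) := by
  simp only [opA, h.ne, if_false, Bool.and_self, max_eq_right h.le]

theorem g_self (i : ℕ) (a : ℤ × Bool) : opA (i + 3) a a = a := by
  simp [opA]

theorem down {a b : ℤ} {p : Bool} (h : CG algA E (a, p) (b, p)) (hab : a < b) :
    ∀ c ≤ b, CG algA E (c, p) (b, p) := by
  intro c hc
  have h1 := op2 ((b - c).toNat + 3) h (CG.refl (F := algA) (E := E) (b, p))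
  rw [g_eq _ p hab, g_self] at h1
  have h2 : b - ((b - c).toNat : ℤ) = c := by
    rw [Int.toNat_of_nonneg (by omega)]; ring
  rwa [h2] at h1

theorem f_cg {u v : algA.carrier} (h : CG algA E u v) : CG algA E (N u.1) (N v.1) := op2 2 h h

/-- the action of the `t`-th power of the operation `0` -/
def sh (t : ℤ) (u : algA.carrier) : algA.carrier := (if u.2 then (u.1 : ℤ) + t else u.1, u.2)

theorem sh_cg {u v : algA.carrier} (h : CG algA E u v) (t : ℤ) :
    CG algA E (sh t u) (sh t v) := by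
  have h0 : ∀ w : algA.carrier, sh 0 w = w := by
    rintro ⟨a, p⟩
    cases p <;> simp [sh]
  have h1 : ∀ (w : algA.carrier) (t : ℤ), opA 0 (sh t w) (sh t w) = sh (t + 1) w := by
    rintro ⟨a, p⟩ t
    cases p <;> simp [sh, opA, add_assoc]
  have h2 : ∀ (w : algA.carrier) (t : ℤ), opA 1 (sh t w) (sh t w) = sh (t - 1) w := by
    rintro ⟨a, p⟩ t
    cases p <;> simp [sh, opA]; ring
  induction t using Int.induction_on with
  | zero => rw [h0, h0]; exact h
  | succ n ih =>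
    have := op2 0 ih ih
    rwa [h1, h1] at this
  | pred n ih =>
    have := op2 1 ih ih
    rwa [h2, h2] at this

theorem x_all {k l : ℤ} (h : CG algA E (X k) (X l)) (hkl : k < l) :
    ∀ p q, CG algA E (X p) (X q) := by
  have h1 : ∀ p q : ℤ, p ≤ q → CG algA E (X p) (X q) := by
    intro p q hpq
    have h2 := sh_cg (down h hkl (p - (q - l)) (by omega)) (q - l)
    have h3 : sh (q - l) (X (p - (q - l))) = X p := by simp [sh, X]
    have h4 : sh (q - l) (X l) = X q := by simp [sh, X]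
    have h5 : CG algA E (sh (q - l) (X (p - (q - l)))) (sh (q - l) (X l)) := h2
    rwa [h3, h4] at h5
  intro p q
  rcases le_total p q with h2 | h2
  · exact h1 p q h2
  · exact (h1 q p h2).symm

theorem mixed {k a : ℤ} (h : CG algA E (X k) (N a)) : ∀ u v, CG algA E u v := by
  have h1 : ∀ p : ℤ, CG algA E (X p) (N a) := by
    intro p
    have h2 := sh_cg h (p - k)
    have h3 : sh (p - k) (X k) = X p := by simp [sh, X]
    have h4 : sh (p - k) (N a) = N a := by simp [sh, N]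
    rwa [h3, h4] at h2
  have h2 : ∀ u, CG algA E u (N a) := by
    rintro ⟨p, b⟩
    cases b with
    | true => exact h1 p
    | false => exact f_cg (h1 p)
  exact fun u v => (h2 u).trans (h2 v).symm

/-- the invariants -/
def P1 (E : algA.carrier → algA.carrier → Prop) : Prop := CG algA E (X 0) (X 1)
def P3 (E : algA.carrier → algA.carrier → Prop) : Prop := CG algA E (X 0) (N 0)
def P4 (E : algA.carrier → algA.carrier → Prop) : Prop := ∀ a b, CG algA E (N a) (N b)
def P5 (E : algA.carrier → algA.carrier → Prop) : Prop := ∃ a b, a < b ∧ CG algA E (N a) (N b)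

theorem x_iff {k l : ℤ} (hkl : k ≠ l) : CG algA E (X k) (X l) ↔ P1 E := by
  constructor
  · intro h
    rcases lt_or_gt_of_ne hkl with h1 | h1
    · exact x_all h h1 _ _
    · exact x_all h.symm h1 _ _
  · intro h
    exact x_all h (by norm_num) _ _

theorem mixed_iff {k a : ℤ} : CG algA E (X k) (N a) ↔ P3 E :=
  ⟨fun h => mixed h _ _, fun h => mixed h _ _⟩

theorem P4_of_P1 (h : P1 E) : P4 E := fun a b => f_cg (x_all h (by norm_num) a b)

theorem P4_of_P3 (h : P3 E) : P4 E := fun _ _ => mixed h _ _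

theorem det1 (h : P5 E → P4 E) (u v : algA.carrier) : CG algA E u v ↔ u = v ∨
    (u.2 = true ∧ v.2 = true ∧ P1 E) ∨ (u.2 ≠ v.2 ∧ P3 E) ∨
    (u.2 = false ∧ v.2 = false ∧ P4 E) := by
  obtain ⟨k, p⟩ := u
  obtain ⟨l, q⟩ := v
  by_cases huv : ((k, p) : ℤ × Bool) = (l, q)
  · rw [huv]
    exact ⟨fun _ => Or.inl rfl, fun _ => .refl _⟩
  cases p <;> cases q
  · have hkl : k ≠ l := fun h => huv (by rw [h])
    constructor
    · intro h1
      refine Or.inr (Or.inr (Or.inr ⟨rfl, rfl, h ?_⟩))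
      rcases lt_or_gt_of_ne hkl with h2 | h2
      · exact ⟨k, l, h2, h1⟩
      · exact ⟨l, k, h2, h1.symm⟩
    · rintro (h1 | ⟨h1, -⟩ | ⟨h1, -⟩ | ⟨-, -, h1⟩)
      · exact absurd h1 huv
      · simp at h1
      · simp at h1
      · exact h1 k l
  · constructor
    · intro h1
      exact Or.inr (Or.inr (Or.inl ⟨by simp, mixed_iff.1 h1.symm⟩))
    · rintro (h1 | ⟨h1, -⟩ | ⟨-, h1⟩ | ⟨-, h1, -⟩)
      · exact absurd h1 huv
      · simp at h1
      · exact (mixed_iff.2 h1).symm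
      · simp at h1
  · constructor
    · intro h1
      exact Or.inr (Or.inr (Or.inl ⟨by simp, mixed_iff.1 h1⟩))
    · rintro (h1 | ⟨-, h1, -⟩ | ⟨-, h1⟩ | ⟨h1, -⟩)
      · exact absurd h1 huv
      · simp at h1
      · exact mixed_iff.2 h1
      · simp at h1
  · have hkl : k ≠ l := fun h => huv (by rw [h])
    constructor
    · intro h1
      exact Or.inr (Or.inl ⟨rfl, rfl, (x_iff hkl).1 h1⟩)
    · rintro (h1 | ⟨-, -, h1⟩ | ⟨h1, -⟩ | ⟨h1, -⟩)
      · exact absurd h1 huv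
      · exact (x_iff hkl).2 h1
      · simp at h1
      · simp at h1

theorem det2 (h5 : P5 E) (h4 : ¬ P4 E) : ∃ m : ℤ, ∀ u v : algA.carrier, CG algA E u v ↔ u = v ∨
    (u.2 = false ∧ v.2 = false ∧ u.1 ≤ m ∧ v.1 ≤ m) := by
  have hbd : ∃ B : ℤ, ∀ b : ℤ, (∃ a < b, CG algA E (N a) (N b)) → b ≤ B := by
    by_contra hcon
    push Not at hcon
    refine h4 fun a b => ?_
    obtain ⟨c, ⟨d, hd, h1⟩, hc⟩ := hcon (max a b)
    exact (down h1 hd a ((le_max_left _ _).trans hc.le)).trans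
      (down h1 hd b ((le_max_right _ _).trans hc.le)).symm
  obtain ⟨m, ⟨a, ha, hm⟩, hmax⟩ := Int.exists_greatest_of_bdd hbd (by
    obtain ⟨a, b, hab, h⟩ := h5
    exact ⟨b, a, hab, h⟩)
  refine ⟨m, fun u v => ⟨fun h => ?_, ?_⟩⟩
  · obtain ⟨k, p⟩ := u
    obtain ⟨l, q⟩ := v
    by_cases huv : ((k, p) : ℤ × Bool) = (l, q)
    · exact Or.inl huv
    right
    have h1 : ¬ P1 E := fun h => h4 (P4_of_P1 h)
    have h3 : ¬ P3 E := fun h => h4 (P4_of_P3 h)
    cases p <;> cases q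
    · have hkl : k ≠ l := fun h => huv (by rw [h])
      refine ⟨rfl, rfl, ?_⟩
      rcases lt_or_gt_of_ne hkl with h2 | h2
      · have := hmax l ⟨k, h2, h⟩
        exact ⟨h2.le.trans this, this⟩
      · have := hmax k ⟨l, h2, h.symm⟩
        exact ⟨this, h2.le.trans this⟩
    · exact absurd (mixed_iff.1 h.symm) h3
    · exact absurd (mixed_iff.1 h) h3
    · have hkl : k ≠ l := fun h => huv (by rw [h])
      exact absurd ((x_iff hkl).1 h) h1
  · obtain ⟨k, p⟩ := u
    obtain ⟨l, q⟩ := v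
    rintro (h | ⟨h1, h2, h3, h4⟩)
    · rw [h]; exact .refl _
    · simp only at h1 h2 h3 h4
      subst h1 h2
      exact (down hm ha k h3).trans (down hm ha l h4).symm

end cong

/-- the relation `θ_m` -/
def Rm (m : ℤ) (u v : algA.carrier) : Prop :=
  u = v ∨ (u.2 = false ∧ v.2 = false ∧ (u.1 : ℤ) ≤ m ∧ (v.1 : ℤ) ≤ m)

theorem opA_le {m : ℤ} (k : ℕ) {u v : ℤ × Bool} (hu : u.2 = false ∧ u.1 ≤ m)
    (hv : v.2 = false ∧ v.1 ≤ m) : (opA k u v).2 = false ∧ (opA k u v).1 ≤ m := by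
  obtain ⟨a, p⟩ := u
  obtain ⟨b, q⟩ := v
  obtain ⟨rfl, hu⟩ := hu
  obtain ⟨rfl, hv⟩ := hv
  simp only at hu hv
  match k with
  | 0 => simpa [opA] using hu
  | 1 => simpa [opA] using hu
  | 2 => simpa [opA] using hu
  | i + 3 =>
    simp only [opA, Bool.and_self, true_and]
    split_ifs
    · exact hu
    · have : max a b ≤ m := max_le hu hv
      omega

theorem Rm_op {m : ℤ} (k : ℕ) {u u' v v' : algA.carrier} (h1 : Rm m u u') (h2 : Rm m v v') :
    Rm m (opA k u v) (opA k u' v') := by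
  rcases h1 with rfl | ⟨h1, h1', h3, h3'⟩
  · rcases h2 with rfl | ⟨h2, h2', h4, h4'⟩
    · exact Or.inl rfl
    · obtain ⟨a, p⟩ := u
      obtain ⟨b, q⟩ := v
      obtain ⟨c, r⟩ := v'
      simp only at h2 h2' h4 h4'
      subst h2 h2'
      match k with
      | 0 => exact Or.inl rfl
      | 1 => exact Or.inl rfl
      | 2 => exact Or.inl rfl
      | i + 3 =>
        by_cases ham : a ≤ m
        · right
          simp only [opA, Bool.and_false, true_and]
          constructor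
          · split_ifs
            · exact ham
            · have : max a b ≤ m := max_le ham h4
              omega
          · split_ifs
            · exact ham
            · have : max a c ≤ m := max_le ham h4'
              omega
        · left
          have h5 : a ≠ b := by omega
          have h6 : a ≠ c := by omega
          simp only [opA, h5, h6, if_false, Bool.and_false]
          rw [max_eq_left (by omega), max_eq_left (by omega)]
  · rcases h2 with rfl | ⟨h2, h2', h4, h4'⟩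
    · obtain ⟨a, p⟩ := u
      obtain ⟨b, q⟩ := v
      obtain ⟨c, r⟩ := u'
      simp only at h1 h1' h3 h3'
      subst h1 h1'
      match k with
      | 0 => right; simpa [opA] using ⟨h3, h3'⟩
      | 1 => right; simpa [opA] using ⟨h3, h3'⟩
      | 2 => right; simpa [opA] using ⟨h3, h3'⟩
      | i + 3 =>
        by_cases hbm : b ≤ m
        · right
          simp only [opA, Bool.false_and, true_and]
          constructor
          · split_ifs
            · exact h3
            · have : max a b ≤ m := max_le h3 hbm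
              omega
          · split_ifs
            · exact h3'
            · have : max c b ≤ m := max_le h3' hbm
              omega
        · left
          have h5 : a ≠ b := by omega
          have h6 : c ≠ b := by omega
          simp only [opA, h5, h6, if_false, Bool.false_and]
          rw [max_eq_right (by omega), max_eq_right (by omega)]
    · obtain ⟨h5, h6⟩ := opA_le k ⟨h1, h3⟩ ⟨h2, h4⟩
      obtain ⟨h7, h8⟩ := opA_le k ⟨h1', h3'⟩ ⟨h2', h4'⟩
      exact Or.inr ⟨h5, h7, h6, h8⟩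

theorem CG_sub_Rm {E : algA.carrier → algA.carrier → Prop} {m : ℤ}
    (hE : ∀ u v, E u v → Rm m u v) {u v : algA.carrier} (h : CG algA E u v) : Rm m u v := by
  induction h with
  | refl u => exact Or.inl rfl
  | symm _ ih =>
    rcases ih with h | ⟨h1, h2, h3, h4⟩
    · exact Or.inl h.symm
    · exact Or.inr ⟨h2, h1, h4, h3⟩
  | trans _ _ ih1 ih2 =>
    rcases ih1 with rfl | ⟨h1, h2, h3, h4⟩
    · exact ih2
    · rcases ih2 with rfl | ⟨h5, h6, h7, h8⟩
      · exact Or.inr ⟨h1, h2, h3, h4⟩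
      · exact Or.inr ⟨h1, h6, h3, h8⟩
  | congr k _ v w _ ih =>
    exact Rm_op k (ih (0 : Fin 2)) (ih (1 : Fin 2))
  | base h => exact hE _ _ h

/-! ### classification -/

/-- `V_1[e]` -/
abbrev V1 : Variety sig2 := idLaws algA x0

theorem iso_of_invariants {e e' : ℕ} (h1 : P1 (Ee algA x0 e) ↔ P1 (Ee algA x0 e'))
    (h3 : P3 (Ee algA x0 e) ↔ P3 (Ee algA x0 e')) (h4 : P4 (Ee algA x0 e) ↔ P4 (Ee algA x0 e'))
    (h5 : P5 (Ee algA x0 e) ↔ P5 (Ee algA x0 e')) : IsoRel V1 1 e e' := by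
  obtain ⟨ψ, hs, hh, hk⟩ := exists_quot hgen hend e
  obtain ⟨ψ', hs', hh', hk'⟩ := exists_quot hgen hend e'
  by_cases hc : P5 (Ee algA x0 e) → P4 (Ee algA x0 e)
  · have hc' : P5 (Ee algA x0 e') → P4 (Ee algA x0 e') := fun h => h4.1 (hc (h5.2 h))
    refine iso_of_quot hs hh hs' hh' fun u v => ?_
    rw [hk, hk', det1 hc, det1 hc', h1, h3, h4]
  · push Not at hc
    obtain ⟨m, hm⟩ := det2 hc.1 hc.2
    obtain ⟨m', hm'⟩ := det2 (h5.1 hc.1) (fun h => hc.2 (h4.2 h))
    have hsh : Function.Surjective (shf (m' - m)) := by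
      rintro ⟨a, p⟩
      exact ⟨((a : ℤ) - (m' - m), p), by simp [shf]⟩
    refine iso_of_quot hs hh (hs'.comp hsh) (fun k h v => ?_) fun u v => ?_
    · show ψ' (shf (m' - m) (algA.op k h v)) = _
      rw [hom_shf, hh']
      rfl
    · show _ ↔ ψ' (shf (m' - m) u) = ψ' (shf (m' - m) v)
      rw [hk, hk', hm, hm']
      obtain ⟨a, p⟩ := u
      obtain ⟨b, q⟩ := v
      simp only [shf, Prod.mk.injEq, add_left_inj]
      constructor
      · rintro (h | ⟨h1, h2, h3, h4⟩)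
        · exact Or.inl h
        · exact Or.inr ⟨h1, h2, by omega, by omega⟩
      · rintro (h | ⟨h1, h2, h3, h4⟩)
        · exact Or.inl h
        · exact Or.inr ⟨h1, h2, by omega, by omega⟩

/-- an isomorphism invariant -/
def Inv (A : Alg sig2) : Prop :=
  ∀ a : A.carrier, A.op 2 trivial (fun _ => a) = A.op 2 trivial fun _ => A.op 0 trivial fun _ => a

theorem Inv.of_iso {A B : Alg sig2} (h : Iso A B) (hA : Inv A) : Inv B := by
  obtain ⟨φ, hφ⟩ := h
  intro b
  have hb : φ (φ.symm b) = b := φ.apply_symm_apply b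
  have e1 := hφ 2 trivial (fun _ => φ.symm b)
  have e2 := hφ 2 trivial (fun _ => A.op 0 trivial fun _ => φ.symm b)
  have e3 := hφ 0 trivial (fun _ => φ.symm b)
  simp only [hb] at e1 e3
  exact (e1.symm.trans (congrArg φ (hA _))).trans (e2.trans
    (congrArg (fun z => B.op 2 trivial fun _ => z) e3))

theorem inv_iff {e : ℕ} : Inv (Pres V1 1 e) ↔ P4 (Ee algA x0 e) := by
  obtain ⟨ψ, hs, hh, hk⟩ := exists_quot hgen hend e
  have key : ∀ u : algA.carrier, ((Pres V1 1 e).op 2 trivial (fun _ => ψ u) =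
      (Pres V1 1 e).op 2 trivial fun _ => (Pres V1 1 e).op 0 trivial fun _ => ψ u) ↔
      CG algA (Ee algA x0 e) (opA 2 u u) (opA 2 (opA 0 u u) (opA 0 u u)) := by
    intro u
    have h1 : (Pres V1 1 e).op 2 trivial (fun _ => ψ u) = ψ (opA 2 u u) :=
      (hh 2 trivial fun _ => u).symm
    have h2 : (Pres V1 1 e).op 0 trivial (fun _ => ψ u) = ψ (opA 0 u u) :=
      (hh 0 trivial fun _ => u).symm
    have h3 : (Pres V1 1 e).op 2 trivial (fun _ => ψ (opA 0 u u)) =
      ψ (opA 2 (opA 0 u u) (opA 0 u u)) := (hh 2 trivial fun _ => opA 0 u u).symm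
    rw [h1, h2, h3, hk]
  constructor
  · intro h a b
    have h1 : ∀ k : ℤ, CG algA (Ee algA x0 e) (N k) (N (k + 1)) := by
      intro k
      have := (key (X k)).1 (h (ψ (X k)))
      simpa [opA, X, N] using this
    have h2 : ∀ a b : ℤ, a ≤ b → CG algA (Ee algA x0 e) (N a) (N b) := by
      intro a b hab
      have h3 := down (h1 b) (by omega)
      exact (h3 a (by omega)).trans (h3 b (by omega)).symm
    rcases le_total a b with hab | hab
    · exact h2 a b hab
    · exact (h2 b a hab).symm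
  · intro h a
    obtain ⟨u, rfl⟩ := hs a
    rw [key]
    exact h _ _

/-! ### the set of laws is c.e. -/

/-- the element represented by a triple of numbers -/
def val (u : ℕ × ℕ × ℕ) : ℤ × Bool := ((u.1 : ℤ) - u.2.1, decide (u.2.2 = 1))

/-- the operations on triples -/
def Opr (k : ℕ) (u1 u2 u : ℕ × ℕ × ℕ) : Prop :=
  (k = 0 ∧ u1.2.2 = 1 ∧ u = (u1.1 + 1, u1.2.1, 1)) ∨
  (k = 1 ∧ u1.2.2 = 1 ∧ u = (u1.1, u1.2.1 + 1, 1)) ∨
  ((k = 0 ∨ k = 1) ∧ u1.2.2 ≠ 1 ∧ u = u1) ∨
  (k = 2 ∧ u = (u1.1, u1.2.1, 0)) ∨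
  (∃ i, k = i + 3 ∧ u.2.2 = u1.2.2 * u2.2.2 ∧
    ((u1.1 + u2.2.1 = u2.1 + u1.2.1 ∧ u.1 = u1.1 ∧ u.2.1 = u1.2.1) ∨
     (u2.1 + u1.2.1 < u1.1 + u2.2.1 ∧ u.1 = u1.1 ∧ u.2.1 = u1.2.1 + i) ∨
     (u1.1 + u2.2.1 < u2.1 + u1.2.1 ∧ u.1 = u2.1 ∧ u.2.1 = u2.2.1 + i)))

theorem val_Opr {k : ℕ} {u1 u2 u : ℕ × ℕ × ℕ} (h : Opr k u1 u2 u) :
    val u = opA k (val u1) (val u2) := by
  obtain ⟨a1, b1, c1⟩ := u1
  obtain ⟨a2, b2, c2⟩ := u2
  obtain ⟨a, b, c⟩ := u
  rcases h with ⟨rfl, h1, h2⟩ | ⟨rfl, h1, h2⟩ | ⟨hk, h1, h2⟩ | ⟨rfl, h2⟩ | ⟨i, rfl, h1, h2⟩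
  · simp only at h1
    obtain ⟨rfl, rfl, rfl⟩ := by simpa using h2
    simp [val, opA, h1]
    ring
  · simp only at h1
    obtain ⟨rfl, rfl, rfl⟩ := by simpa using h2
    simp [val, opA, h1]
    ring
  · simp only at h1
    obtain ⟨rfl, rfl, rfl⟩ := by simpa using h2
    rcases hk with rfl | rfl <;> simp [val, opA, h1]
  · obtain ⟨rfl, rfl, rfl⟩ := by simpa using h2
    simp [val, opA]
  · simp only at h1 h2
    have h3 : decide (c = 1) = (decide (c1 = 1) && decide (c2 = 1)) := by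
      rw [h1, ← Bool.decide_and]
      congr 1
      refine propext ⟨fun h => ⟨Nat.eq_one_of_mul_eq_one_right h,
        Nat.eq_one_of_mul_eq_one_left h⟩, ?_⟩
      rintro ⟨h, h'⟩
      rw [h, h']
    show ((a : ℤ) - b, decide (c = 1)) = opA (i + 3) ((a1 : ℤ) - b1, decide (c1 = 1))
      ((a2 : ℤ) - b2, decide (c2 = 1))
    simp only [opA, h3, Prod.mk.injEq, and_true]
    rcases h2 with ⟨h2, rfl, rfl⟩ | ⟨h2, rfl, rfl⟩ | ⟨h2, rfl, rfl⟩
    · rw [if_pos (by omega)]
    · rw [if_neg (by omega), max_eq_left (by omega)]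
      push_cast
      ring
    · rw [if_neg (by omega), max_eq_right (by omega)]
      push_cast
      ring

theorem exists_Opr (k : ℕ) (u1 u2 : ℕ × ℕ × ℕ) : ∃ u, Opr k u1 u2 u := by
  obtain ⟨a1, b1, c1⟩ := u1
  obtain ⟨a2, b2, c2⟩ := u2
  match k with
  | 0 =>
    by_cases h : c1 = 1
    · exact ⟨_, Or.inl ⟨rfl, h, rfl⟩⟩
    · exact ⟨_, Or.inr (Or.inr (Or.inl ⟨Or.inl rfl, h, rfl⟩))⟩
  | 1 =>
    by_cases h : c1 = 1
    · exact ⟨_, Or.inr (Or.inl ⟨rfl, h, rfl⟩)⟩
    · exact ⟨_, Or.inr (Or.inr (Or.inl ⟨Or.inr rfl, h, rfl⟩))⟩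
  | 2 => exact ⟨_, Or.inr (Or.inr (Or.inr (Or.inl ⟨rfl, rfl⟩)))⟩
  | i + 3 =>
    rcases lt_trichotomy (a1 + b2) (a2 + b1) with h | h | h
    · exact ⟨(a2, b2 + i, c1 * c2), Or.inr (Or.inr (Or.inr (Or.inr ⟨i, rfl, rfl,
        Or.inr (Or.inr ⟨h, rfl, rfl⟩)⟩)))⟩
    · exact ⟨(a1, b1, c1 * c2), Or.inr (Or.inr (Or.inr (Or.inr ⟨i, rfl, rfl,
        Or.inl ⟨h, rfl, rfl⟩⟩)))⟩
    · exact ⟨(a1, b1 + i, c1 * c2), Or.inr (Or.inr (Or.inr (Or.inr ⟨i, rfl, rfl,
        Or.inr (Or.inl ⟨h, rfl, rfl⟩)⟩)))⟩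

/-- lists witnessing evaluations -/
def ClE (L : List (ℕ × (ℕ × ℕ × ℕ))) : Prop :=
  ∀ p ∈ L, (p.1 = 0 ∧ p.2 = (0, 0, 1)) ∨ ∃ k : ℕ, ∃ q ∈ L, ∃ r ∈ L,
    p.1 = 2 * Nat.pair k (encode [q.1, r.1]) + 1 ∧ Opr k q.2 r.2 p.2

/-- `c` is the code of a term with value represented by `u` -/
def EvC (c : ℕ) (u : ℕ × ℕ × ℕ) : Prop := ∃ L, ClE L ∧ (c, u) ∈ L

theorem code_app (k : ℕ) (f : Fin 2 → Tm sig2 (Fin 1)) :
    (Tm.app (S := sig2) k trivial f).code =
      2 * Nat.pair k (encode [(f 0).code, (f 1).code]) + 1 := rfl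

theorem evC_sound {c : ℕ} {u : ℕ × ℕ × ℕ} (h : EvC c u) :
    ∃ s : Tm sig2 (Fin 1), s.code = c ∧ algA.eval (fun _ => x0) s = val u := by
  obtain ⟨L, hL, hc⟩ := h
  induction c using Nat.strong_induction_on generalizing u with
  | _ c ih =>
    rcases hL _ hc with ⟨h1, h2⟩ | ⟨k, q, hq, r, hr, h1, h2⟩
    · simp only at h1 h2
      refine ⟨.var 0, by rw [h1]; rfl, ?_⟩
      rw [h2]
      show ((0 : ℤ), true) = _
      simp [val]
    · simp only at h1 h2
      have l1 : q.1 ≤ encode [q.1, r.1] := le_encode_of_mem (by simp)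
      have l2 : r.1 ≤ encode [q.1, r.1] := le_encode_of_mem (by simp)
      have l3 := Nat.right_le_pair k (encode [q.1, r.1])
      obtain ⟨s, hs1, hs2⟩ := ih q.1 (by omega) (u := q.2) hq
      obtain ⟨t, ht1, ht2⟩ := ih r.1 (by omega) (u := r.2) hr
      refine ⟨.app k trivial (![s, t] : Fin 2 → Tm sig2 (Fin 1)), ?_, ?_⟩
      · rw [code_app, h1]
        simp [hs1, ht1]
      · show opA k (algA.eval (fun _ => x0) s) (algA.eval (fun _ => x0) t) = _
        rw [hs2, ht2, val_Opr h2]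

theorem evC_complete (s : Tm sig2 (Fin 1)) :
    ∃ u, EvC s.code u ∧ algA.eval (fun _ => x0) s = val u := by
  induction s with
  | var i =>
    refine ⟨(0, 0, 1), ⟨[(0, 0, 0, 1)], ?_, ?_⟩, ?_⟩
    · intro p hp
      have : p = (0, 0, 0, 1) := by simpa using hp
      rw [this]
      exact Or.inl ⟨rfl, rfl⟩
    · have : i = 0 := Subsingleton.elim _ _
      rw [this]
      show ((2 * 0 : ℕ), _) ∈ _
      simp
    · show ((0 : ℤ), true) = _
      simp [val]
  | app k hk f ih =>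
    obtain ⟨u1, ⟨L1, hL1, hm1⟩, h1⟩ := ih (0 : Fin 2)
    obtain ⟨u2, ⟨L2, hL2, hm2⟩, h2⟩ := ih (1 : Fin 2)
    obtain ⟨u, hu⟩ := exists_Opr k u1 u2
    refine ⟨u, ⟨(2 * Nat.pair k (encode [(f (0 : Fin 2)).code, (f (1 : Fin 2)).code]) + 1, u) ::
      (L1 ++ L2), ?_, ?_⟩, ?_⟩
    · intro p hp
      rcases List.mem_cons.1 hp with rfl | hp
      · exact Or.inr ⟨k, _, List.mem_cons_of_mem _ (List.mem_append_left _ hm1), _,
          List.mem_cons_of_mem _ (List.mem_append_right _ hm2), rfl, hu⟩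
      · rcases List.mem_append.1 hp with hp | hp
        · rcases hL1 p hp with h | ⟨j, q, hq, r, hr, h3, h4⟩
          · exact Or.inl h
          · exact Or.inr ⟨j, q, List.mem_cons_of_mem _ (List.mem_append_left _ hq), r,
              List.mem_cons_of_mem _ (List.mem_append_left _ hr), h3, h4⟩
        · rcases hL2 p hp with h | ⟨j, q, hq, r, hr, h3, h4⟩
          · exact Or.inl h
          · exact Or.inr ⟨j, q, List.mem_cons_of_mem _ (List.mem_append_right _ hq), r,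
              List.mem_cons_of_mem _ (List.mem_append_right _ hr), h3, h4⟩
    · have : (Tm.app (S := sig2) k hk f).code = _ := code_app k f
      rw [this]
      exact List.mem_cons_self
    · show opA k (algA.eval (fun _ => x0) (f (0 : Fin 2)))
        (algA.eval (fun _ => x0) (f (1 : Fin 2))) = _
      rw [h1, h2, val_Opr hu]

theorem re_EvC : REPred fun x : ℕ × (ℕ × ℕ × ℕ) => EvC x.1 x.2 := by
  refine RE.ex (p := fun (x : ℕ × (ℕ × ℕ × ℕ)) (L : List (ℕ × (ℕ × ℕ × ℕ))) =>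
    ClE L ∧ (x.1, x.2) ∈ L) ?_
  refine RE.and ?_ (RE.mem_list (by fun_prop) (by fun_prop))
  refine RE.all_mem (p := fun (x : (ℕ × (ℕ × ℕ × ℕ)) × List (ℕ × (ℕ × ℕ × ℕ)))
    (p : ℕ × (ℕ × ℕ × ℕ)) => (p.1 = 0 ∧ p.2 = (0, 0, 1)) ∨ ∃ k : ℕ, ∃ q ∈ x.2, ∃ r ∈ x.2,
    p.1 = 2 * Nat.pair k (encode [q.1, r.1]) + 1 ∧ Opr k q.2 r.2 p.2) (l := fun x => x.2) ?_
    (by fun_prop)
  refine RE.or (RE.and (RE.eq (by fun_prop) (by fun_prop)) (RE.eq (by fun_prop)
    (by fun_prop))) ?_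
  refine RE.ex (p := fun (x : ((ℕ × (ℕ × ℕ × ℕ)) × List (ℕ × (ℕ × ℕ × ℕ))) ×
    (ℕ × (ℕ × ℕ × ℕ))) (k : ℕ) => ∃ q ∈ x.1.2, ∃ r ∈ x.1.2,
    x.2.1 = 2 * Nat.pair k (encode [q.1, r.1]) + 1 ∧ Opr k q.2 r.2 x.2.2) ?_
  refine RE.ex_mem (p := fun (x : (((ℕ × (ℕ × ℕ × ℕ)) × List (ℕ × (ℕ × ℕ × ℕ))) ×
    (ℕ × (ℕ × ℕ × ℕ))) × ℕ) (q : ℕ × (ℕ × ℕ × ℕ)) => ∃ r ∈ x.1.1.2,
    x.1.2.1 = 2 * Nat.pair x.2 (encode [q.1, r.1]) + 1 ∧ Opr x.2 q.2 r.2 x.1.2.2)
    (l := fun x => x.1.1.2) ?_ (by fun_prop)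
  refine RE.ex_mem (p := fun (x : ((((ℕ × (ℕ × ℕ × ℕ)) × List (ℕ × (ℕ × ℕ × ℕ))) ×
    (ℕ × (ℕ × ℕ × ℕ))) × ℕ) × (ℕ × (ℕ × ℕ × ℕ))) (r : ℕ × (ℕ × ℕ × ℕ)) =>
    x.1.1.2.1 = 2 * Nat.pair x.1.2 (encode [x.2.1, r.1]) + 1 ∧
    Opr x.1.2 x.2.2 r.2 x.1.1.2.2) (l := fun x => x.1.1.1.2) ?_ (by fun_prop)
  refine RE.and (RE.eq (by fun_prop) (by fun_prop)) ?_
  have h : REPred fun y : ℕ × (ℕ × ℕ × ℕ) × (ℕ × ℕ × ℕ) × (ℕ × ℕ × ℕ) =>
      Opr y.1 y.2.1 y.2.2.1 y.2.2.2 := by
    refine RE.or (RE.and (RE.eq (by fun_prop) (by fun_prop)) (RE.and (RE.eq (by fun_prop)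
      (by fun_prop)) (RE.eq (by fun_prop) (by fun_prop)))) (RE.or (RE.and (RE.eq (by fun_prop)
      (by fun_prop)) (RE.and (RE.eq (by fun_prop) (by fun_prop)) (RE.eq (by fun_prop)
      (by fun_prop)))) (RE.or (RE.and (RE.or (RE.eq (by fun_prop) (by fun_prop)) (RE.eq
      (by fun_prop) (by fun_prop))) (RE.and (RE.ne (by fun_prop) (by fun_prop)) (RE.eq
      (by fun_prop) (by fun_prop)))) (RE.or (RE.and (RE.eq (by fun_prop) (by fun_prop))
      (RE.eq (by fun_prop) (by fun_prop))) ?_)))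
    refine RE.ex (p := fun (y : ℕ × (ℕ × ℕ × ℕ) × (ℕ × ℕ × ℕ) × (ℕ × ℕ × ℕ)) (i : ℕ) =>
      y.1 = i + 3 ∧ y.2.2.2.2.2 = y.2.1.2.2 * y.2.2.1.2.2 ∧
      ((y.2.1.1 + y.2.2.1.2.1 = y.2.2.1.1 + y.2.1.2.1 ∧ y.2.2.2.1 = y.2.1.1 ∧
        y.2.2.2.2.1 = y.2.1.2.1) ∨
      (y.2.2.1.1 + y.2.1.2.1 < y.2.1.1 + y.2.2.1.2.1 ∧ y.2.2.2.1 = y.2.1.1 ∧
        y.2.2.2.2.1 = y.2.1.2.1 + i) ∨
      (y.2.1.1 + y.2.2.1.2.1 < y.2.2.1.1 + y.2.1.2.1 ∧ y.2.2.2.1 = y.2.2.1.1 ∧
        y.2.2.2.2.1 = y.2.2.1.2.1 + i))) ?_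
    refine RE.and (RE.eq (by fun_prop) (by fun_prop)) (RE.and (RE.eq (by fun_prop)
      (by fun_prop)) (RE.or (RE.and (RE.eq (by fun_prop) (by fun_prop)) (RE.and (RE.eq
      (by fun_prop) (by fun_prop)) (RE.eq (by fun_prop) (by fun_prop)))) (RE.or (RE.and
      (RE.lt (by fun_prop) (by fun_prop)) (RE.and (RE.eq (by fun_prop) (by fun_prop))
      (RE.eq (by fun_prop) (by fun_prop)))) (RE.and (RE.lt (by fun_prop) (by fun_prop))
      (RE.and (RE.eq (by fun_prop) (by fun_prop)) (RE.eq (by fun_prop) (by fun_prop)))))))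
  exact RE.comp h (f := fun x : (((((ℕ × (ℕ × ℕ × ℕ)) × List (ℕ × (ℕ × ℕ × ℕ))) ×
    (ℕ × (ℕ × ℕ × ℕ))) × ℕ) × (ℕ × (ℕ × ℕ × ℕ))) × (ℕ × (ℕ × ℕ × ℕ)) =>
    (x.1.1.2, x.1.2.2, x.2.2, x.1.1.1.2.2)) (by fun_prop)

theorem codeN_subst (s : Tm sig2 (Fin 1)) :
    codeN (s.subst fun _ => (.var 0 : Tm sig2 ℕ)) = s.code := by
  induction s with
  | var i =>
    have : i = 0 := Subsingleton.elim _ _
    rw [this]; rfl
  | app k hk f ih =>
    show 2 * Nat.pair k (encode (List.ofFn fun i => codeN ((f i).subst _))) + 1 =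
      2 * Nat.pair k (encode (List.ofFn fun i => (f i).code)) + 1
    simp only [ih]

theorem ceLaws_V1 : CELaws V1 := by
  have h : REPred fun c : ℕ => ∃ x : (ℕ × ℕ) × ((ℕ × ℕ × ℕ) × (ℕ × ℕ × ℕ)),
      c = Nat.pair x.1.1 x.1.2 ∧ EvC x.1.1 x.2.1 ∧ EvC x.1.2 x.2.2 ∧
      x.2.1.1 + x.2.2.2.1 = x.2.2.1 + x.2.1.2.1 ∧
      ((x.2.1.2.2 = 1 ∧ x.2.2.2.2 = 1) ∨ (x.2.1.2.2 ≠ 1 ∧ x.2.2.2.2 ≠ 1)) := by
    refine RE.ex (p := fun (c : ℕ) (x : (ℕ × ℕ) × ((ℕ × ℕ × ℕ) × (ℕ × ℕ × ℕ))) =>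
      c = Nat.pair x.1.1 x.1.2 ∧ EvC x.1.1 x.2.1 ∧ EvC x.1.2 x.2.2 ∧
      x.2.1.1 + x.2.2.2.1 = x.2.2.1 + x.2.1.2.1 ∧
      ((x.2.1.2.2 = 1 ∧ x.2.2.2.2 = 1) ∨ (x.2.1.2.2 ≠ 1 ∧ x.2.2.2.2 ≠ 1))) ?_
    refine RE.and (RE.eq (by fun_prop) (by fun_prop)) (RE.and (RE.comp re_EvC
      (f := fun x : ℕ × ((ℕ × ℕ) × ((ℕ × ℕ × ℕ) × (ℕ × ℕ × ℕ))) => (x.2.1.1, x.2.2.1))
      (by fun_prop)) (RE.and (RE.comp re_EvC
      (f := fun x : ℕ × ((ℕ × ℕ) × ((ℕ × ℕ × ℕ) × (ℕ × ℕ × ℕ))) => (x.2.1.2, x.2.2.2))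
      (by fun_prop)) (RE.and (RE.eq (by fun_prop) (by fun_prop)) (RE.or (RE.and
      (RE.eq (by fun_prop) (by fun_prop)) (RE.eq (by fun_prop) (by fun_prop)))
      (RE.and (RE.ne (by fun_prop) (by fun_prop)) (RE.ne (by fun_prop) (by fun_prop)))))))
  have hval : ∀ u v : ℕ × ℕ × ℕ, (u.1 + v.2.1 = v.1 + u.2.1 ∧
      ((u.2.2 = 1 ∧ v.2.2 = 1) ∨ (u.2.2 ≠ 1 ∧ v.2.2 ≠ 1))) ↔ val u = val v := by
    rintro ⟨a, b, c⟩ ⟨a', b', c'⟩
    simp only [val, Prod.mk.injEq, decide_eq_decide]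
    constructor
    · rintro ⟨h1, h2⟩
      exact ⟨by omega, by tauto⟩
    · rintro ⟨h1, h2⟩
      exact ⟨by omega, by tauto⟩
  refine h.of_eq fun c => ?_
  constructor
  · rintro ⟨⟨⟨c1, c2⟩, ⟨u, v⟩⟩, rfl, h1, h2, h3⟩
    obtain ⟨s, hs1, hs2⟩ := evC_sound h1
    obtain ⟨t, ht1, ht2⟩ := evC_sound h2
    refine ⟨_, ⟨s, t, ?_, rfl⟩, ?_⟩
    · rw [hs2, ht2]
      exact (hval u v).1 h3
    · simp only [codeN_subst, hs1, ht1]
  · rintro ⟨_, ⟨s, t, h1, rfl⟩, rfl⟩
    obtain ⟨u, hu1, hu2⟩ := evC_complete s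
    obtain ⟨v, hv1, hv2⟩ := evC_complete t
    refine ⟨((s.code, t.code), (u, v)), ?_, hu1, hv1, (hval u v).2 ?_⟩
    · simp only [codeN_subst]
    · rw [← hu2, ← hv2, h1]

/-! ### the reduction -/

/-- codes of the terms `up n` -/
def cup (n : ℕ) : ℕ := (up n).code

theorem cup_succ (n : ℕ) : cup (n + 1) = 2 * Nat.pair 0 (encode [cup n, cup n]) + 1 :=
  code_app 0 fun _ => up n

theorem computable_cup : Computable cup := by
  have h : Computable fun n : ℕ => (Nat.rec (0 : ℕ)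
      (fun _ IH => 2 * Nat.pair 0 (encode [IH, IH]) + 1) n : ℕ) := by
    refine Computable.nat_rec (f := fun n : ℕ => n) (g := fun _ : ℕ => (0 : ℕ))
      (h := fun (_ : ℕ) (p : ℕ × ℕ) => 2 * Nat.pair 0 (encode [p.2, p.2]) + 1)
      Computable.id (Computable.const 0) ?_
    show Computable fun x : ℕ × (ℕ × ℕ) => 2 * Nat.pair 0 (encode [x.2.2, x.2.2]) + 1
    fun_prop
  refine h.of_eq fun n => ?_
  induction n with
  | zero => rfl
  | succ n ih =>
    rw [cup_succ, ← ih]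

/-- terms for numbers -/
def num (n : ℕ) : Tm sig2 (Fin 1) := .app 2 trivial fun _ => up n

def cnum (n : ℕ) : ℕ := 2 * Nat.pair 2 (encode [cup n, cup n]) + 1

theorem code_num (n : ℕ) : (num n).code = cnum n := code_app 2 fun _ => up n

theorem eval_num (n : ℕ) : algA.eval (fun _ => x0) (num n) = N n := by
  show opA 2 (algA.eval (fun _ => x0) (up n)) (algA.eval (fun _ => x0) (up n)) = _
  rw [eval_up]
  rfl

theorem computable_cnum : Computable cnum := by
  have := computable_cup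
  unfold cnum
  fun_prop

/-- a term for the number `-1` -/
def numm : Tm sig2 (Fin 1) := .app 2 trivial fun _ => dn 1

theorem eval_numm : algA.eval (fun _ => x0) numm = N (-1) := by
  show opA 2 (algA.eval (fun _ => x0) (dn 1)) (algA.eval (fun _ => x0) (dn 1)) = _
  rw [eval_dn]
  rfl

theorem exists_h : ∃ h : ℕ → ℕ, Computable h ∧
    (∀ e e', (¬ ∀ a, W e (Nat.pair e a)) → (¬ ∀ a, W e' (Nat.pair e' a)) →
      IsoRel V1 1 (h e) (h e')) ∧
    (∀ e e', (∀ a, W e (Nat.pair e a)) → (¬ ∀ a, W e' (Nat.pair e' a)) →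
      ¬ IsoRel V1 1 (h e) (h e')) := by
  have hcn := computable_cnum
  have hP : REPred fun x : ℕ × ℕ => x.2 = Nat.pair numm.code (cnum 0) ∨
      ∃ b, (∀ a < b + 1, W x.1 (Nat.pair x.1 a)) ∧ x.2 = Nat.pair (cnum 0) (cnum b) := by
    refine RE.or (RE.eq (by fun_prop) (by fun_prop)) ?_
    refine RE.ex (p := fun (x : ℕ × ℕ) (b : ℕ) => (∀ a < b + 1, W x.1 (Nat.pair x.1 a)) ∧
      x.2 = Nat.pair (cnum 0) (cnum b)) ?_
    refine RE.and ?_ (RE.eq (by fun_prop) (by fun_prop))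
    refine RE.all_lt (p := fun (x : (ℕ × ℕ) × ℕ) (a : ℕ) => W x.1.1 (Nat.pair x.1.1 a)) ?_
      (f := fun x => x.2 + 1) (by fun_prop)
    exact RE.comp re_W (f := fun x : ((ℕ × ℕ) × ℕ) × ℕ => (x.1.1.1, Nat.pair x.1.1.1 x.2))
      (by fun_prop)
  obtain ⟨h, hh, hW⟩ := smn (P := fun (e z : ℕ) => z = Nat.pair numm.code (cnum 0) ∨
      ∃ b, (∀ a < b + 1, W e (Nat.pair e a)) ∧ z = Nat.pair (cnum 0) (cnum b)) hP
  have hW' : ∀ e z : ℕ, W (h e) z ↔ (z = Nat.pair numm.code (cnum 0) ∨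
      ∃ b, (∀ a < b + 1, W e (Nat.pair e a)) ∧ z = Nat.pair (cnum 0) (cnum b)) := hW
  have hE : ∀ e u v, Ee algA x0 (h e) u v ↔ ((u = N (-1) ∧ v = N 0) ∨
      ∃ b : ℕ, (∀ a < b + 1, W e (Nat.pair e a)) ∧ u = N 0 ∧ v = N b) := by
    intro e u v
    constructor
    · rintro ⟨s, t, h1, h2, h3⟩
      rcases (hW' _ _).1 h1 with h4 | ⟨b, hb, h4⟩
      · obtain ⟨h5, h6⟩ := Nat.pair_eq_pair.1 h4
        rw [← code_num] at h6
        have h5' := code_inj h5
        have h6' := code_inj h6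
        subst h5' h6'
        left
        exact ⟨by rw [← h2, eval_numm], by rw [← h3, eval_num]; rfl⟩
      · obtain ⟨h5, h6⟩ := Nat.pair_eq_pair.1 h4
        rw [← code_num] at h5 h6
        have h5' := code_inj h5
        have h6' := code_inj h6
        subst h5' h6'
        right
        exact ⟨b, hb, by rw [← h2, eval_num]; rfl, by rw [← h3, eval_num]⟩
    · rintro (⟨rfl, rfl⟩ | ⟨b, hb, rfl, rfl⟩)
      · refine ⟨numm, num 0, ?_, eval_numm, by rw [eval_num]; rfl⟩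
        rw [hW', code_num]
        exact Or.inl rfl
      · refine ⟨num 0, num b, ?_, by rw [eval_num]; rfl, eval_num b⟩
        rw [hW', code_num, code_num]
        exact Or.inr ⟨b, hb, rfl⟩
  have hS : ∀ e, (¬ ∀ a, W e (Nat.pair e a)) → ¬ P1 (Ee algA x0 (h e)) ∧
      ¬ P3 (Ee algA x0 (h e)) ∧ ¬ P4 (Ee algA x0 (h e)) ∧ P5 (Ee algA x0 (h e)) := by
    intro e he
    push Not at he
    obtain ⟨a0, ha0⟩ := he
    have hsub : ∀ u v, Ee algA x0 (h e) u v → Rm a0 u v := by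
      intro u v huv
      rcases (hE e u v).1 huv with ⟨rfl, rfl⟩ | ⟨b, hb, rfl, rfl⟩
      · right
        exact ⟨rfl, rfl, by show (-1 : ℤ) ≤ a0; omega, by show (0 : ℤ) ≤ a0; omega⟩
      · right
        have : b < a0 := by
          by_contra hcon
          exact ha0 (hb a0 (by omega))
        exact ⟨rfl, rfl, by show (0 : ℤ) ≤ a0; omega, by show (b : ℤ) ≤ a0; omega⟩
    have h4 : ¬ P4 (Ee algA x0 (h e)) := by
      intro h4
      rcases CG_sub_Rm hsub (h4 ((a0 : ℤ) + 1) 0) with h5 | ⟨-, -, h5, -⟩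
      · have h6 : ((a0 : ℤ) + 1) = 0 := congrArg Prod.fst h5
        omega
      · have h6 : ((a0 : ℤ) + 1) ≤ a0 := h5
        omega
    refine ⟨fun h1 => h4 (P4_of_P1 h1), fun h3 => h4 (P4_of_P3 h3), h4, ⟨-1, 0, by norm_num,
      .base ((hE e _ _).2 (Or.inl ⟨rfl, rfl⟩))⟩⟩
  have hS' : ∀ e, (∀ a, W e (Nat.pair e a)) → P4 (Ee algA x0 (h e)) := by
    intro e he a b
    have h1 : ∀ c : ℕ, CG algA (Ee algA x0 (h e)) (N 0) (N c) := fun c =>
      .base ((hE e _ _).2 (Or.inr ⟨c, fun a _ => he a, rfl, rfl⟩))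
    have h2 := down (h1 ((max a b).toNat + 1)) (by omega)
    exact (h2 a (by omega)).trans (h2 b (by omega)).symm
  refine ⟨h, hh, fun e e' he he' => ?_, fun e e' he he' hiso => ?_⟩
  · obtain ⟨a1, a3, a4, a5⟩ := hS e he
    obtain ⟨b1, b3, b4, b5⟩ := hS e' he'
    exact iso_of_invariants (by tauto) (by tauto) (by tauto) (by tauto)
  · exact (hS e' he').2.2.1 (inv_iff.1 ((inv_iff.2 (hS' e he)).of_iso hiso))

theorem not_le_eqCE : ¬ Le (IsoRel V1 1) EqCE := by
  rintro ⟨f, hf, hF⟩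
  obtain ⟨h, hh, h1, h2⟩ := exists_h
  obtain ⟨a0, ha0⟩ := recursion (β := ℕ) (P := fun _ _ => False) (RE.const False)
  have ha0' : ¬ ∀ a, W a0 (Nat.pair a0 a) := fun h1 => (ha0 (Nat.pair a0 0)).1 (h1 0)
  obtain ⟨R, hR, hR1⟩ := Pool.Agent.Q316.Var.eqCE_pi2
  have hfh : Computable fun e => f (h e) := hf.comp hh
  obtain ⟨e, he⟩ := recursion (β := ℕ × (ℕ × ℕ)) (P := fun _ p => R (f (h p.1), f (h a0), p.2))
    (RE.comp hR (f := fun p : ℕ × (ℕ × (ℕ × ℕ)) => (f (h p.2.1), f (h a0), p.2.2))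
      ((hfh.comp (Computable.fst.comp Computable.snd)).pair ((Computable.const _).pair
        (Computable.snd.comp Computable.snd))))
  have key : (¬ ∀ a, W e (Nat.pair e a)) ↔ ∀ b, W e (Nat.pair e b) := by
    have h3 : (¬ ∀ a, W e (Nat.pair e a)) ↔ IsoRel V1 1 (h e) (h a0) :=
      ⟨fun h3 => h1 e a0 h3 ha0', fun h3 h4 => h2 e a0 h4 ha0' h3⟩
    rw [h3, hF, eqCE_iff, hR1]
    constructor
    · intro h3 b
      have h4 := (he (e, b.unpair)).2 (h3 b.unpair)
      have h5 : encode (e, b.unpair) = Nat.pair e b := by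
        have : encode b.unpair = b := by
          show Nat.pair b.unpair.1 b.unpair.2 = b
          exact Nat.pair_unpair b
        show Nat.pair e (encode b.unpair) = Nat.pair e b
        rw [this]
      rwa [h5] at h4
    · rintro h3 ⟨z, s⟩
      exact (he (e, z, s)).1 (h3 (Nat.pair z s))
  tauto

theorem eqCE_not_le : ¬ Le EqCE (IsoRel V1 1) := by
  classical
  rintro ⟨f, -, hF⟩
  have h0 : ∀ k : ℕ, ∃ e, ∀ x, W e x ↔ x = k := by
    intro k
    obtain ⟨e, he⟩ := recursion (β := ℕ) (P := fun _ x => x = k)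
      (RE.eq (by fun_prop) (by fun_prop))
    exact ⟨e, he⟩
  choose c hc using h0
  let inv : ℕ → Prop × Prop × Prop × Prop := fun k =>
    (P1 (Ee algA x0 (f (c k))), P3 (Ee algA x0 (f (c k))), P4 (Ee algA x0 (f (c k))),
      P5 (Ee algA x0 (f (c k))))
  obtain ⟨k, l, hkl, h⟩ := Finite.exists_ne_map_eq_of_infinite inv
  simp only [inv, Prod.mk.injEq, eq_iff_iff] at h
  have h1 := (hF _ _).2 (iso_of_invariants h.1 h.2.1 h.2.2.1 h.2.2.2)
  have h2 : W (c l) k := (eqCE_iff.1 h1 k).1 ((hc k k).2 rfl)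
  exact hkl ((hc l k).1 h2)

theorem nontriv_V1 : (idLaws algA x0).Nontriv := by
  refine ⟨algA, ?_, N 0, N 1, fun h => ?_⟩
  · rintro _ ⟨s, t, h, rfl⟩ v
    obtain ⟨φ, hφ, ha⟩ := hend (v 0)
    have h2 := hom_eval hφ (fun _ : Fin 1 => x0) s
    have h3 := hom_eval hφ (fun _ : Fin 1 => x0) t
    rw [ha] at h2 h3
    rw [h] at h2
    show algA.eval v (s.subst fun _ => .var 0) = algA.eval v (t.subst fun _ => .var 0)
    rw [eval_subst, eval_subst]
    exact h2.symm.trans h3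
  · have h1 : (0 : ℤ) = 1 := congrArg Prod.fst h
    omega

/-- The variety `idLaws algA x0` and the varieties of algebras with constant operations are
nontrivial and have c.e. sets of laws, and the isomorphism relation of `(idLaws algA x0)_1` is
incomparable under computable reducibility with `=^ce` and with the isomorphism relations of the
classes `(constOps ar har)_n`, `n ≥ 1`. -/
theorem result : ((idLaws algA x0).Nontriv ∧ CELaws (idLaws algA x0)) ∧
    (¬ Le (IsoRel (idLaws algA x0) 1) EqCE ∧ ¬ Le EqCE (IsoRel (idLaws algA x0) 1)) ∧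
    ∀ (ar : ℕ → ℕ) (har : Computable ar),
      ((constOps ar har).Nontriv ∧ CELaws (constOps ar har)) ∧ ∀ n ≥ 1,
      ¬ Le (IsoRel (idLaws algA x0) 1) (IsoRel (constOps ar har) n) ∧
      ¬ Le (IsoRel (constOps ar har) n) (IsoRel (idLaws algA x0) 1) := by
  have htr : ∀ {E F G : ℕ → ℕ → Prop}, Le E F → Le F G → Le E G := fun h h' =>
    Pool.Agent.Q316.Var.Le.trans h h'
  refine ⟨⟨nontriv_V1, ceLaws_V1⟩, ⟨not_le_eqCE, eqCE_not_le⟩, fun ar har =>
    ⟨⟨nontriv ar har, ceLaws ar har⟩, fun n hn =>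
    ⟨fun h => not_le_eqCE (htr h (isoRel_le hn)), fun h => eqCE_not_le (htr (le_isoRel hn) h)⟩⟩⟩

end Pool.Agent.Results.MP_418eb4_lc.IncomparableClasses
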